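import Pool.Agent.Lib.MP_c132d1_al.Main

/-!
# Betti numbers of the semigroup rings of `S_{2,4}` and `S_{2,5}`

For every field `k`, every `e ≥ 6` and every `j ≥ 1` we show
`β_j(2,4) = β_j(2,5) = j * C(e-2, j+1)`, where `β_j(m,n)` is the `k`-dimension of
`Tor_j^R(k[S_{m,n}], k)`.

Idea of the proof: the Koszul complex of the variables resolves `k = R/(X_i)`, so `Tor` is Koszul
homology with values in `k[S]`; `t^e` is a nonzerodivisor on `k[S]`, which reduces the computation
to the Artinian algebra `A = k[S]/t^e k[S]`, whose multiplication table is very simple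
(`x_1^2 = y_2`, `x_1 x_{n-1} = y_n`, all other products of non-units vanish); there the ranks of
the Koszul differentials are computed explicitly.
-/

namespace Pool.Agent.Results.MP_c132d1_al.BettiNumbers

open MvPolynomial CategoryTheory

universe u

/-- The index set `J_{m,n} = {0, …, e-1} \ {m, n}`. -/
abbrev IndexSet (e m n : ℕ) : Finset ℕ := Finset.range e \ {m, n}

/-- The polynomial ring `R_{m,n} = k[X_i : i ∈ J_{m,n}]`. -/
abbrev PolyRing (k : Type u) [Field k] (e m n : ℕ) : Type u :=
  MvPolynomial ↥(IndexSet e m n) k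

/-- The `k`-algebra map `R_{m,n} → k[t]`, `X_i ↦ t^(e+i)`. -/
noncomputable def monomialMap (k : Type u) [Field k] (e m n : ℕ) :
    PolyRing k e m n →ₐ[k] Polynomial k :=
  MvPolynomial.aeval fun i => (Polynomial.X : Polynomial k) ^ (e + i.1)

/-- The defining ideal `I_{m,n}`: the kernel of `X_i ↦ t^(e+i)`. -/
noncomputable abbrev definingIdeal (k : Type u) [Field k] (e m n : ℕ) :
    Ideal (PolyRing k e m n) :=
  RingHom.ker (monomialMap k e m n)

/-- The semigroup ring `k[S_{m,n}] = R_{m,n}/I_{m,n}`. -/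
abbrev SemigroupRing (k : Type u) [Field k] (e m n : ℕ) : Type u :=
  PolyRing k e m n ⧸ definingIdeal k e m n

/-- The residue field `k = R_{m,n}/(X_i : i ∈ J_{m,n})`, as a module over `R_{m,n}`. -/
abbrev ResidueField (k : Type u) [Field k] (e m n : ℕ) : Type u :=
  PolyRing k e m n ⧸ (Ideal.span (Set.range X) : Ideal (PolyRing k e m n))

/-- The module `Tor_j^R(k[S_{m,n}], k)` over `R = R_{m,n}`. -/
noncomputable def torModule (k : Type u) [Field k] (e m n j : ℕ) :
    ModuleCat.{u} (PolyRing k e m n) :=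
  ((Tor (ModuleCat.{u} (PolyRing k e m n)) j).obj
    (ModuleCat.of (PolyRing k e m n) (SemigroupRing k e m n))).obj
    (ModuleCat.of (PolyRing k e m n) (ResidueField k e m n))

/-- The Betti number `β_j(m,n) = dim_k Tor_j^R(k[S_{m,n}], k)`, as a cardinal. -/
noncomputable def betti (k : Type u) [Field k] (e m n j : ℕ) : Cardinal.{u} :=
  Module.rank k ((ModuleCat.restrictScalars (algebraMap k (PolyRing k e m n))).obj
    (torModule k e m n j))

/-- **Main theorem.** For every field `k`, every `e ≥ 6` and every `j ≥ 1`,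
`β_j(2,4) = β_j(2,5) = j * C(e-2, j+1)`. -/
theorem result (k : Type u) [Field k] (e j : ℕ) (he : 6 ≤ e) (hj : 1 ≤ j) :
    betti k e 2 4 j = ((j * (e - 2).choose (j + 1) : ℕ) : Cardinal.{u}) ∧
    betti k e 2 5 j = ((j * (e - 2).choose (j + 1) : ℕ) : Cardinal.{u}) := by
  obtain ⟨i, rfl⟩ : ∃ i, j = i + 1 := ⟨j - 1, by omega⟩
  exact ⟨Pool.Agent.MPc132d1.rank_tor_eq (k := k) he (Or.inl rfl) i,
    Pool.Agent.MPc132d1.rank_tor_eq (k := k) he (Or.inr rfl) i⟩

end Pool.Agent.Results.MP_c132d1_al.BettiNumbers
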